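import Pool.Agent.helper84.QD.Defs

/-! Module P for MP_747ad5_an: Green potentials of the unit disk. -/

open Metric Set Topology Filter MeasureTheory
open scoped Manifold ContDiff ENNReal ComplexConjugate

namespace Pool.Agent.helper84.QD

namespace P70

theorem normSq_id (z y : ℂ) : ‖1 - conj y * z‖ ^ 2 = ‖z - y‖ ^ 2 + (1 - ‖z‖ ^ 2) * (1 - ‖y‖ ^ 2) := by
  simp only [← Complex.normSq_eq_norm_sq, Complex.normSq_apply, Complex.sub_re, Complex.sub_im,
    Complex.mul_re, Complex.mul_im, Complex.conj_re, Complex.conj_im, Complex.one_re,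
    Complex.one_im]
  ring

theorem norm_sub_le {z y : ℂ} (hz : ‖z‖ ≤ 1) (hy : ‖y‖ ≤ 1) : ‖z - y‖ ≤ ‖1 - conj y * z‖ := by
  have h := normSq_id z y
  have h1 : 0 ≤ (1 - ‖z‖ ^ 2) * (1 - ‖y‖ ^ 2) := by
    apply mul_nonneg
    · nlinarith [norm_nonneg z]
    · nlinarith [norm_nonneg y]
  have h2 : ‖z - y‖ ^ 2 ≤ ‖1 - conj y * z‖ ^ 2 := by linarith
  exact (pow_le_pow_iff_left₀ (norm_nonneg _) (norm_nonneg _) two_ne_zero).1 h2

theorem gr_self (y : ℂ) : gr y y = 0 := by simp [gr]

theorem gr_nonneg {z y : ℂ} (hz : ‖z‖ ≤ 1) (hy : ‖y‖ ≤ 1) : 0 ≤ gr z y := by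
  by_cases h : z = y
  · rw [h, gr_self]
  · have h0 : 0 < ‖z - y‖ := norm_pos_iff.2 (sub_ne_zero.2 h)
    exact Real.log_nonneg ((one_le_div h0).2 (norm_sub_le hz hy))

theorem gr_le {z y : ℂ} (hz : ‖z‖ ≤ 1) (hy : ‖y‖ ≤ 1) {d : ℝ} (hd : 0 < d) (h : d ≤ ‖z - y‖) :
    gr z y ≤ (1 - ‖z‖ ^ 2) / (2 * d ^ 2) := by
  have h0 : 0 < ‖z - y‖ := hd.trans_le h
  have hz1 : 0 ≤ 1 - ‖z‖ ^ 2 := by nlinarith [norm_nonneg z]
  have hy1 : 0 ≤ 1 - ‖y‖ ^ 2 := by nlinarith [norm_nonneg y]
  have h1 : 0 < ‖1 - conj y * z‖ := h0.trans_le (norm_sub_le hz hy)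
  have h2 : gr z y = (1 / 2) * Real.log ((‖1 - conj y * z‖ / ‖z - y‖) ^ 2) := by
    rw [Real.log_pow, gr]; push_cast; ring
  have h3 : Real.log ((‖1 - conj y * z‖ / ‖z - y‖) ^ 2) ≤ (‖1 - conj y * z‖ / ‖z - y‖) ^ 2 - 1 :=
    Real.log_le_sub_one_of_pos (by positivity)
  have h4 : (‖1 - conj y * z‖ / ‖z - y‖) ^ 2 - 1 = (1 - ‖z‖ ^ 2) * (1 - ‖y‖ ^ 2) / ‖z - y‖ ^ 2 := by
    rw [div_pow, normSq_id]; field_simp; ring
  have h5 : (1 - ‖z‖ ^ 2) * (1 - ‖y‖ ^ 2) / ‖z - y‖ ^ 2 ≤ (1 - ‖z‖ ^ 2) / d ^ 2 := by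
    apply div_le_div₀ hz1 _ (by positivity) (by gcongr)
    nlinarith [norm_nonneg y, sq_nonneg ‖y‖]
  rw [h2]
  calc (1 / 2) * Real.log ((‖1 - conj y * z‖ / ‖z - y‖) ^ 2)
      ≤ (1 / 2) * ((1 - ‖z‖ ^ 2) / d ^ 2) := by linarith
    _ = (1 - ‖z‖ ^ 2) / (2 * d ^ 2) := by field_simp

theorem measurable_gr : Measurable (fun p : ℂ × ℂ => gr p.1 p.2) := by
  unfold gr
  apply Real.measurable_log.comp
  apply Measurable.div
  · exact (Continuous.measurable (by fun_prop))
  · exact (Continuous.measurable (by fun_prop))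

theorem measurable_gr_right (z : ℂ) : Measurable (fun y : ℂ => gr z y) := by
  unfold gr
  apply Real.measurable_log.comp
  apply Measurable.div
  · exact (Continuous.measurable (by fun_prop))
  · exact (Continuous.measurable (by fun_prop))

theorem ae_mem {K : Set ℂ} {μ : Measure ℂ} (hμ : μ Kᶜ = 0) : ∀ᵐ y ∂μ, y ∈ K := by
  rw [ae_iff]; exact hμ

theorem pot_toReal {K : Set ℂ} (hK1 : K ⊆ ball 0 1) {μ : Measure ℂ} (hμ : μ Kᶜ = 0) {z : ℂ}
    (hz : ‖z‖ ≤ 1) : (pot μ z).toReal = ∫ y, gr z y ∂μ := by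
  rw [integral_eq_lintegral_of_nonneg_ae]
  · rfl
  · filter_upwards [ae_mem hμ] with y hy
    have := hK1 hy
    rw [mem_ball_zero_iff] at this
    exact gr_nonneg hz this.le
  · exact (measurable_gr_right z).aestronglyMeasurable

end P70

open P70

theorem pot_harmonic {K : Set ℂ} (hK : IsCompact K) (hK1 : K ⊆ ball 0 1) {μ : Measure ℂ}
    [IsFiniteMeasure μ] (hμ : μ Kᶜ = 0) {z : ℂ} (hz : z ∈ ball (0 : ℂ) 1) (hzK : z ∉ K) :
    ∃ g : ℂ → ℂ, AnalyticAt ℂ g z ∧ ∀ᶠ w in 𝓝 z, (pot μ w).toReal = (g w).re := by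
  rw [mem_ball_zero_iff] at hz
  obtain ⟨ε0, hε0, hε0K⟩ := Metric.isOpen_iff.1 hK.isClosed.isOpen_compl z hzK
  set ε := min ε0 (1 - ‖z‖) with hε
  have hεpos : 0 < ε := lt_min hε0 (by linarith)
  have hε1 : ε ≤ 1 - ‖z‖ := min_le_right _ _
  have hdist : ∀ y ∈ K, ε ≤ ‖z - y‖ := by
    intro y hy
    by_contra hcon
    push Not at hcon
    apply hε0K (a := y) _ hy
    rw [mem_ball, dist_eq_norm, norm_sub_rev]
    exact hcon.trans_le (min_le_left _ _)
  have hyn : ∀ y ∈ K, ‖y‖ < 1 := fun y hy => by simpa using hK1 hy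
  set A : ℂ → ℂ := fun y => conj y / (1 - conj y * z) with hA
  set B : ℂ → ℂ := fun y => 1 / (z - y) with hB
  have hden : ∀ y ∈ K, ε ≤ ‖1 - conj y * z‖ := fun y hy =>
    (hdist y hy).trans (norm_sub_le hz.le (hyn y hy).le)
  have hAn : ∀ y ∈ K, ‖A y‖ ≤ 1 / ε := by
    intro y hy
    rw [hA]
    simp only [norm_div, RCLike.norm_conj]
    exact div_le_div₀ zero_le_one (hyn y hy).le hεpos (hden y hy)
  have hBn : ∀ y ∈ K, ‖B y‖ ≤ 1 / ε := by
    intro y hy
    rw [hB]
    simp only [norm_div, norm_one]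
    exact div_le_div₀ zero_le_one le_rfl hεpos (hdist y hy)
  have hAw : ∀ y ∈ K, ∀ w ∈ ball z (ε / 2), ‖-(A y * (w - z))‖ ≤ 1 / 2 := by
    intro y hy w hw
    rw [mem_ball, dist_eq_norm] at hw
    rw [norm_neg, norm_mul]
    calc ‖A y‖ * ‖w - z‖ ≤ (1 / ε) * (ε / 2) :=
          mul_le_mul (hAn y hy) hw.le (norm_nonneg _) (by positivity)
      _ = 1 / 2 := by field_simp
  have hBw : ∀ y ∈ K, ∀ w ∈ ball z (ε / 2), ‖B y * (w - z)‖ ≤ 1 / 2 := by
    intro y hy w hw
    rw [mem_ball, dist_eq_norm] at hw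
    rw [norm_mul]
    calc ‖B y‖ * ‖w - z‖ ≤ (1 / ε) * (ε / 2) :=
          mul_le_mul (hBn y hy) hw.le (norm_nonneg _) (by positivity)
      _ = 1 / 2 := by field_simp
  set F : ℂ → ℂ → ℂ := fun w y => (gr z y : ℂ) + Complex.log (1 + -(A y * (w - z))) -
    Complex.log (1 + B y * (w - z)) with hF
  set F' : ℂ → ℂ → ℂ := fun w y => -(A y) / (1 + -(A y * (w - z))) - B y / (1 + B y * (w - z)) with hF'
  have hAm : Measurable A := by
    rw [hA]; exact Measurable.div (Continuous.measurable (by fun_prop)) (Continuous.measurable (by fun_prop))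
  have hBm : Measurable B := by
    rw [hB]; exact Measurable.div measurable_const (Continuous.measurable (by fun_prop))
  have hFm : ∀ w, Measurable (F w) := by
    intro w
    rw [hF]
    apply Measurable.sub
    · apply Measurable.add
      · exact Complex.measurable_ofReal.comp (measurable_gr_right z)
      · apply Complex.measurable_log.comp
        exact measurable_const.add ((hAm.mul measurable_const).neg)
    · apply Complex.measurable_log.comp
      exact measurable_const.add (hBm.mul measurable_const)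
  have hFm' : ∀ w, Measurable (F' w) := by
    intro w
    rw [hF']
    apply Measurable.sub
    · exact hAm.neg.div (measurable_const.add ((hAm.mul measurable_const).neg))
    · exact hBm.div (measurable_const.add (hBm.mul measurable_const))
  have hFint : ∀ w ∈ ball z (ε / 2), Integrable (F w) μ := by
    intro w hw
    refine Integrable.of_bound (hFm w).aestronglyMeasurable (1 / (2 * ε ^ 2) + 3 / 4 + 3 / 4) ?_
    filter_upwards [ae_mem hμ] with y hy
    have b1 : ‖((gr z y : ℝ) : ℂ)‖ ≤ 1 / (2 * ε ^ 2) := by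
      rw [Complex.norm_real, Real.norm_of_nonneg (gr_nonneg hz.le (hyn y hy).le)]
      refine (gr_le hz.le (hyn y hy).le hεpos (hdist y hy)).trans ?_
      gcongr
      nlinarith [norm_nonneg z]
    have b2 := Complex.norm_log_one_add_half_le_self (hAw y hy w hw)
    have b3 := Complex.norm_log_one_add_half_le_self (hBw y hy w hw)
    have b2' := hAw y hy w hw
    have b3' := hBw y hy w hw
    rw [hF]
    calc ‖(gr z y : ℂ) + Complex.log (1 + -(A y * (w - z))) - Complex.log (1 + B y * (w - z))‖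
        ≤ ‖(gr z y : ℂ) + Complex.log (1 + -(A y * (w - z)))‖ + ‖Complex.log (1 + B y * (w - z))‖ :=
          norm_sub_le _ _
      _ ≤ ‖(gr z y : ℂ)‖ + ‖Complex.log (1 + -(A y * (w - z)))‖ + ‖Complex.log (1 + B y * (w - z))‖ := by
          gcongr; exact norm_add_le _ _
      _ ≤ 1 / (2 * ε ^ 2) + 3 / 4 + 3 / 4 := by
          gcongr <;> linarith
  have hder : ∀ w₀ ∈ ball z (ε / 2), HasDerivAt (fun w => ∫ y, F w y ∂μ) (∫ y, F' w₀ y ∂μ) w₀ := by
    intro w₀ hw₀
    have hmain := hasDerivAt_integral_of_dominated_loc_of_deriv_le (μ := μ) (𝕜 := ℂ) (F := F)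
      (F' := F') (x₀ := w₀) (s := ball z (ε / 2)) (bound := fun _ => 4 / ε)
      (isOpen_ball.mem_nhds hw₀) (Eventually.of_forall fun w => (hFm w).aestronglyMeasurable)
      (hFint w₀ hw₀) (hFm' w₀).aestronglyMeasurable ?_ (integrable_const _) ?_
    · exact hmain.2
    · filter_upwards [ae_mem hμ] with y hy w hw
      have a1 : 1 / 2 ≤ ‖1 + -(A y * (w - z))‖ := by
        have := norm_sub_norm_le (1 : ℂ) (A y * (w - z))
        have h2 := hAw y hy w hw
        rw [norm_neg] at h2
        rw [← sub_eq_add_neg]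
        rw [norm_one] at this
        linarith
      have a2 : 1 / 2 ≤ ‖1 + B y * (w - z)‖ := by
        have := norm_sub_norm_le (1 : ℂ) (-(B y * (w - z)))
        have h2 := hBw y hy w hw
        rw [norm_neg, sub_neg_eq_add, norm_one] at this
        linarith
      rw [hF']
      calc ‖-(A y) / (1 + -(A y * (w - z))) - B y / (1 + B y * (w - z))‖
          ≤ ‖-(A y) / (1 + -(A y * (w - z)))‖ + ‖B y / (1 + B y * (w - z))‖ := norm_sub_le _ _
        _ = ‖A y‖ / ‖1 + -(A y * (w - z))‖ + ‖B y‖ / ‖1 + B y * (w - z)‖ := by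
            rw [norm_div, norm_div, norm_neg]
        _ ≤ (1 / ε) / (1 / 2) + (1 / ε) / (1 / 2) := by
            apply add_le_add
            · exact div_le_div₀ (by positivity) (hAn y hy) (by norm_num) a1
            · exact div_le_div₀ (by positivity) (hBn y hy) (by norm_num) a2
        _ = 4 / ε := by field_simp; norm_num
    · filter_upwards [ae_mem hμ] with y hy w hw
      have s1 : 1 + -(A y * (w - z)) ∈ Complex.slitPlane :=
        Complex.mem_slitPlane_of_norm_lt_one ((hAw y hy w hw).trans_lt (by norm_num))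
      have s2 : 1 + B y * (w - z) ∈ Complex.slitPlane :=
        Complex.mem_slitPlane_of_norm_lt_one ((hBw y hy w hw).trans_lt (by norm_num))
      have d1 : HasDerivAt (fun w : ℂ => 1 + -(A y * (w - z))) (-(A y)) w := by
        have := (((hasDerivAt_id w).sub_const z).const_mul (A y)).neg.const_add 1
        simpa using this
      have d2 : HasDerivAt (fun w : ℂ => 1 + B y * (w - z)) (B y) w := by
        have := (((hasDerivAt_id w).sub_const z).const_mul (B y)).const_add 1
        simpa using this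
      have e1 := d1.clog s1
      have e2 := d2.clog s2
      have e3 := (e1.const_add ((gr z y : ℝ) : ℂ)).sub e2
      exact e3
  refine ⟨fun w => ∫ y, F w y ∂μ, ?_, ?_⟩
  · have : DifferentiableOn ℂ (fun w => ∫ y, F w y ∂μ) (ball z (ε / 2)) := fun w hw =>
      (hder w hw).differentiableAt.differentiableWithinAt
    exact this.analyticAt (ball_mem_nhds z (by positivity))
  · filter_upwards [ball_mem_nhds z (show 0 < ε / 2 by positivity)] with w hw
    have hwn : ‖w‖ ≤ 1 := by
      have h1 : ‖w - z‖ < ε / 2 := by rwa [mem_ball, dist_eq_norm] at hw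
      have h2 : ‖w‖ ≤ ‖w - z‖ + ‖z‖ := by
        have := norm_add_le (w - z) z
        rwa [sub_add_cancel] at this
      linarith
    rw [pot_toReal hK1 hμ hwn]
    have hre : (∫ y, F w y ∂μ).re = ∫ y, (F w y).re ∂μ := by
      have := integral_re (𝕜 := ℂ) (hFint w hw)
      simpa using this.symm
    rw [hre]
    apply integral_congr_ae
    filter_upwards [ae_mem hμ] with y hy
    have n1 : 1 - conj y * z ≠ 0 := by
      rw [← norm_pos_iff]; exact hεpos.trans_le (hden y hy)
    have n2 : z - y ≠ 0 := by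
      rw [← norm_pos_iff]; exact hεpos.trans_le (hdist y hy)
    have n3 : w - y ≠ 0 := by
      intro h0
      have h1 : ‖w - z‖ < ε / 2 := by rwa [mem_ball, dist_eq_norm] at hw
      have h2 : z - y = -(w - z) := by
        have : w = y := sub_eq_zero.1 h0
        rw [this]; ring
      have := hdist y hy
      rw [h2, norm_neg] at this
      linarith
    have n4 : 1 - conj y * w ≠ 0 := by
      rw [← norm_pos_iff]
      exact (norm_pos_iff.2 n3).trans_le (norm_sub_le hwn (hyn y hy).le)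
    have e1 : 1 + -(A y * (w - z)) = (1 - conj y * w) / (1 - conj y * z) := by
      rw [hA]; field_simp; ring
    have e2 : 1 + B y * (w - z) = (w - y) / (z - y) := by
      rw [hB]; field_simp; ring
    simp only [hF]
    rw [Complex.sub_re, Complex.add_re, Complex.log_re, Complex.log_re, Complex.ofReal_re, e1, e2,
      norm_div, norm_div]
    unfold gr
    rw [Real.log_div (norm_ne_zero_iff.2 n4) (norm_ne_zero_iff.2 n3),
      Real.log_div (norm_ne_zero_iff.2 n1) (norm_ne_zero_iff.2 n2),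
      Real.log_div (norm_ne_zero_iff.2 n4) (norm_ne_zero_iff.2 n1),
      Real.log_div (norm_ne_zero_iff.2 n3) (norm_ne_zero_iff.2 n2)]
    ring

theorem pot_boundary {K : Set ℂ} (hK : IsCompact K) (hK1 : K ⊆ ball 0 1) {μ : Measure ℂ}
    [IsFiniteMeasure μ] (hμ : μ Kᶜ = 0)
    (hc : ContinuousOn (fun z => (pot μ z).toReal) (ball 0 1)) :
    ContinuousOn (fun z => (pot μ z).toReal) (closedBall 0 1) ∧
      ∀ z ∈ sphere (0 : ℂ) 1, pot μ z = 0 := by
  have hyn : ∀ y ∈ K, ‖y‖ < 1 := fun y hy => by simpa using hK1 hy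
  have hzero : ∀ z ∈ sphere (0 : ℂ) 1, pot μ z = 0 := by
    intro z hz
    rw [mem_sphere_zero_iff_norm] at hz
    have h : ∀ y : ℂ, gr z y = 0 := by
      intro y
      by_cases hzy : z = y
      · rw [hzy, gr_self]
      · have h1 := normSq_id z y
        rw [hz] at h1
        have h2 : ‖1 - conj y * z‖ ^ 2 = ‖z - y‖ ^ 2 := by rw [h1]; ring
        have h3 : ‖1 - conj y * z‖ = ‖z - y‖ :=
          (pow_left_inj₀ (norm_nonneg _) (norm_nonneg _) two_ne_zero).1 h2
        have h4 : ‖z - y‖ ≠ 0 := norm_ne_zero_iff.2 (sub_ne_zero.2 hzy)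
        rw [gr, h3, div_self h4, Real.log_one]
    simp [pot, h]
  refine ⟨?_, hzero⟩
  intro z hz
  rw [mem_closedBall_zero_iff] at hz
  rcases hz.lt_or_eq with hlt | heq
  · have h1 : ContinuousAt (fun z => (pot μ z).toReal) z :=
      hc.continuousAt (isOpen_ball.mem_nhds (by simpa using hlt))
    exact h1.continuousWithinAt
  · have hzK : z ∉ K := by
      intro h; have := hyn z h; rw [heq] at this; exact lt_irrefl _ this
    obtain ⟨ε, hε, hεK⟩ := Metric.isOpen_iff.1 hK.isClosed.isOpen_compl z hzK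
    have hdist : ∀ w ∈ ball z (ε / 2), ∀ y ∈ K, ε / 2 ≤ ‖w - y‖ := by
      intro w hw y hy
      by_contra hcon
      push Not at hcon
      apply hεK (a := y) _ hy
      rw [mem_ball, dist_eq_norm] at hw
      rw [mem_ball, dist_eq_norm]
      calc ‖y - z‖ = ‖(y - w) + (w - z)‖ := by congr 1; ring
        _ ≤ ‖y - w‖ + ‖w - z‖ := norm_add_le _ _
        _ < ε / 2 + ε / 2 := by
            rw [norm_sub_rev y w]; exact add_lt_add hcon hw
        _ = ε := by ring
    rw [ContinuousWithinAt]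
    have hz0 : (pot μ z).toReal = 0 := by rw [hzero z (by simpa using heq)]; simp
    simp only [hz0]
    have hup : ∀ᶠ w in 𝓝[closedBall 0 1] z,
        (pot μ w).toReal ≤ (1 - ‖w‖ ^ 2) / (2 * (ε / 2) ^ 2) * μ.real univ := by
      have h1 : ∀ᶠ w in 𝓝[closedBall (0 : ℂ) 1] z, w ∈ ball z (ε / 2) :=
        mem_nhdsWithin_of_mem_nhds (ball_mem_nhds z (by positivity))
      filter_upwards [h1, self_mem_nhdsWithin] with w hw hw1
      rw [mem_closedBall_zero_iff] at hw1
      rw [pot_toReal hK1 hμ hw1]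
      have : ∫ y, gr w y ∂μ ≤ ∫ _y, (1 - ‖w‖ ^ 2) / (2 * (ε / 2) ^ 2) ∂μ := by
        apply integral_mono_of_nonneg
        · filter_upwards [ae_mem hμ] with y hy
          exact gr_nonneg hw1 (hyn y hy).le
        · exact integrable_const _
        · filter_upwards [ae_mem hμ] with y hy
          exact gr_le hw1 (hyn y hy).le (by positivity) (hdist w hw y hy)
      refine this.trans (le_of_eq ?_)
      rw [integral_const, smul_eq_mul, mul_comm]
    have hlim : Tendsto (fun w : ℂ => (1 - ‖w‖ ^ 2) / (2 * (ε / 2) ^ 2) * μ.real univ)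
        (𝓝[closedBall 0 1] z) (𝓝 0) := by
      have hcont : Continuous (fun w : ℂ => (1 - ‖w‖ ^ 2) / (2 * (ε / 2) ^ 2) * μ.real univ) := by
        fun_prop
      have h2 := (hcont.tendsto z).mono_left (nhdsWithin_le_nhds (s := closedBall (0 : ℂ) 1))
      have h3 : (1 - ‖z‖ ^ 2) / (2 * (ε / 2) ^ 2) * μ.real univ = 0 := by rw [heq]; simp
      rw [h3] at h2
      exact h2
    exact squeeze_zero' (Eventually.of_forall fun w => ENNReal.toReal_nonneg) hup hlim

namespace P70

/-- the mean value inequality for Green's function -/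
theorem gr_circleAverage {y : ℂ} (hy : ‖y‖ < 1) {c : ℂ} {r : ℝ} (hr : 0 < r)
    (hcr : closedBall c r ⊆ ball 0 1) (hyc : y ≠ c) :
    Real.circleAverage (fun z => gr z y) c r ≤ gr c y := by
  have hne : ∀ u ∈ closedBall c |r|, 1 - conj y * u ≠ 0 := by
    intro u hu
    rw [abs_of_pos hr] at hu
    have hu1 : ‖u‖ < 1 := by simpa using hcr hu
    intro h0
    have h1 : conj y * u = 1 := (sub_eq_zero.1 h0).symm
    have h2 : ‖y‖ * ‖u‖ = 1 := by
      rw [← RCLike.norm_conj y, ← norm_mul, h1, norm_one]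
    nlinarith [norm_nonneg y, norm_nonneg u]
  have h1 : Real.circleAverage (fun z => gr z y) c r =
      Real.circleAverage (fun z => Real.log ‖1 - conj y * z‖ - Real.log ‖z - y‖) c r := by
    apply Real.circleAverage_congr_codiscreteWithin _ hr.ne'
    have : {z | z ≠ y} ∈ codiscreteWithin (Metric.sphere c |r|) := by
      apply codiscreteWithin_iff_locallyFiniteComplementWithin.2
      intro z hz
      use Set.univ
      refine ⟨univ_mem, ?_⟩
      apply Set.Subsingleton.finite
      intro z₁ hz₁ z₂ hz₂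
      have e1 : z₁ = y := by
        by_contra h; exact hz₁.2.2 h
      have e2 : z₂ = y := by
        by_contra h; exact hz₂.2.2 h
      rw [e1, e2]
    filter_upwards [this, self_mem_codiscreteWithin (Metric.sphere c |r|)] with z hz hzs
    have hzs' : z ∈ closedBall c |r| := sphere_subset_closedBall hzs
    rw [gr, Real.log_div (norm_ne_zero_iff.2 (hne z hzs')) (norm_ne_zero_iff.2 (sub_ne_zero.2 hz))]
  have hanal : AnalyticOnNhd ℂ (fun z : ℂ => 1 - conj y * z) (closedBall c |r|) := by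
    intro u _
    fun_prop
  have hint1 : CircleIntegrable (fun z : ℂ => Real.log ‖1 - conj y * z‖) c r :=
    MeromorphicOn.circleIntegrable_log_norm (f := fun z : ℂ => 1 - conj y * z)
      (fun z hz => (hanal z (sphere_subset_closedBall hz)).meromorphicAt)
  have hint2 : CircleIntegrable (fun z : ℂ => Real.log ‖z - y‖) c r :=
    circleIntegrable_log_norm_sub_const r
  rw [h1, Real.circleAverage_fun_sub hint1 hint2,
    AnalyticOnNhd.circleAverage_log_norm_of_ne_zero hanal hne]
  have h2 := circleAverage_log_norm_sub_const_eq_log_radius_add_posLog (c := c) (a := y) hr.ne'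
  rw [h2]
  have hcy : 0 < ‖c - y‖ := norm_pos_iff.2 (sub_ne_zero.2 hyc.symm)
  have h3 : Real.log (r⁻¹ * ‖c - y‖) ≤ Real.posLog (r⁻¹ * ‖c - y‖) := by
    rw [Real.posLog_apply]; exact le_max_right _ _
  have h4 : Real.log (r⁻¹ * ‖c - y‖) = -Real.log r + Real.log ‖c - y‖ := by
    rw [Real.log_mul (by positivity) hcy.ne', Real.log_inv]
  have h5 : gr c y = Real.log ‖1 - conj y * c‖ - Real.log ‖c - y‖ := by
    rw [gr, Real.log_div (norm_ne_zero_iff.2 (hne c (mem_closedBall_self (abs_nonneg r)))) hcy.ne']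
  rw [h5]
  linarith

theorem gr_circleIntegrable (y c : ℂ) (r : ℝ) : CircleIntegrable (fun z => gr z y) c r := by
  have h : (fun z => gr z y) = fun z => Real.log ‖(1 - conj y * z) / (z - y)‖ := by
    funext z; rw [gr, norm_div]
  rw [h]
  exact MeromorphicOn.circleIntegrable_log_norm (f := fun z : ℂ => (1 - conj y * z) / (z - y))
    (fun z hz => by fun_prop)

end P70

theorem pot_superMean {K : Set ℂ} (hK : IsCompact K) (hK1 : K ⊆ ball 0 1) {μ : Measure ℂ}
    [IsFiniteMeasure μ] (hμ : μ Kᶜ = 0) (hat : ∀ z : ℂ, μ {z} = 0)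
    (hfin : ∀ z ∈ ball (0 : ℂ) 1, pot μ z ≠ ⊤)
    (hc : ContinuousOn (fun z => (pot μ z).toReal) (ball 0 1))
    {c : ℂ} {r : ℝ} (hr : 0 < r) (hcr : closedBall c r ⊆ ball 0 1) :
    Real.circleAverage (fun z => (pot μ z).toReal) c r ≤ (pot μ c).toReal := by
  have hyn : ∀ y ∈ K, ‖y‖ < 1 := fun y hy => by simpa using hK1 hy
  have hcirc : ∀ θ : ℝ, circleMap c r θ ∈ ball (0 : ℂ) 1 := fun θ =>
    hcr (sphere_subset_closedBall (circleMap_mem_sphere c hr.le θ))
  have hc1 : c ∈ ball (0 : ℂ) 1 := hcr (mem_closedBall_self hr.le)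
  have hpi : (0 : ℝ) ≤ 2 * Real.pi := by positivity
  have hTc : Continuous (fun θ : ℝ => (pot μ (circleMap c r θ)).toReal) := by
    have := hc.comp_continuous (continuous_circleMap c r) hcirc
    exact this
  -- the inner integrals
  have hinner : ∀ᵐ y ∂μ, ∫⁻ (θ : ℝ) in Ioc 0 (2 * Real.pi), ENNReal.ofReal (gr (circleMap c r θ) y) ≤
      ENNReal.ofReal (2 * Real.pi) * ENNReal.ofReal (gr c y) := by
    have hyc : ∀ᵐ y ∂μ, y ≠ c := by
      rw [ae_iff]
      simp only [ne_eq, not_not]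
      exact hat c
    filter_upwards [ae_mem hμ, hyc] with y hy hyc
    have hi := gr_circleIntegrable y c r
    have hi' : IntegrableOn (fun θ : ℝ => gr (circleMap c r θ) y) (Ioc 0 (2 * Real.pi)) := by
      have := hi
      rw [CircleIntegrable, intervalIntegrable_iff_integrableOn_Ioc_of_le hpi] at this
      exact this
    rw [← ofReal_integral_eq_lintegral_ofReal hi'
      (Eventually.of_forall fun θ => gr_nonneg (by
        have := hcirc θ; rw [mem_ball_zero_iff] at this; exact this.le) (hyn y hy).le)]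
    rw [← ENNReal.ofReal_mul hpi]
    apply ENNReal.ofReal_le_ofReal
    have h1 := gr_circleAverage (hyn y hy) hr hcr hyc
    rw [Real.circleAverage_def, intervalIntegral.integral_of_le hpi, smul_eq_mul] at h1
    have h2 : 0 < 2 * Real.pi := by positivity
    rw [inv_mul_le_iff₀ h2] at h1
    exact h1
  have hswap : ∫⁻ (θ : ℝ) in Ioc 0 (2 * Real.pi), pot μ (circleMap c r θ) =
      ∫⁻ y, (∫⁻ (θ : ℝ) in Ioc 0 (2 * Real.pi), ENNReal.ofReal (gr (circleMap c r θ) y)) ∂μ := by
    unfold pot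
    apply lintegral_lintegral_swap
    apply Measurable.aemeasurable
    have : Measurable (fun p : ℝ × ℂ => gr (circleMap c r p.1) p.2) := by
      unfold gr
      apply Real.measurable_log.comp
      apply Measurable.div
      · exact (Continuous.measurable (by fun_prop))
      · exact (Continuous.measurable (by fun_prop))
    exact ENNReal.measurable_ofReal.comp this
  have hle : ∫⁻ (θ : ℝ) in Ioc 0 (2 * Real.pi), pot μ (circleMap c r θ) ≤
      ENNReal.ofReal (2 * Real.pi) * pot μ c := by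
    rw [hswap]
    calc ∫⁻ y, (∫⁻ (θ : ℝ) in Ioc 0 (2 * Real.pi), ENNReal.ofReal (gr (circleMap c r θ) y)) ∂μ
        ≤ ∫⁻ y, ENNReal.ofReal (2 * Real.pi) * ENNReal.ofReal (gr c y) ∂μ := lintegral_mono_ae hinner
      _ = ENNReal.ofReal (2 * Real.pi) * pot μ c := by
          rw [lintegral_const_mul]
          · rfl
          · exact ENNReal.measurable_ofReal.comp (measurable_gr_right c)
  have hval : ∫ (θ : ℝ) in Ioc 0 (2 * Real.pi), (pot μ (circleMap c r θ)).toReal =
      (∫⁻ (θ : ℝ) in Ioc 0 (2 * Real.pi), pot μ (circleMap c r θ)).toReal := by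
    rw [integral_eq_lintegral_of_nonneg_ae (Eventually.of_forall fun θ => ENNReal.toReal_nonneg)
      hTc.aestronglyMeasurable]
    congr 1
    apply lintegral_congr
    intro θ
    exact ENNReal.ofReal_toReal (hfin _ (hcirc θ))
  rw [Real.circleAverage_def, intervalIntegral.integral_of_le hpi, hval, smul_eq_mul]
  have h2 : 0 < 2 * Real.pi := by positivity
  rw [inv_mul_le_iff₀ h2]
  have hfin2 : ENNReal.ofReal (2 * Real.pi) * pot μ c ≠ ⊤ :=
    ENNReal.mul_ne_top ENNReal.ofReal_ne_top (hfin c hc1)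
  have h3 := ENNReal.toReal_mono hfin2 hle
  rw [ENNReal.toReal_mul, ENNReal.toReal_ofReal hpi] at h3
  exact h3

end Pool.Agent.helper84.QD
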